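import Mathlib
import Pool.Agent.H220.TS.Stm

/-!
# Schwarz-Pick through the inverse of a univalent function (`S_inv`)

`inv_analyticAt`: the inverse of an injective holomorphic function is holomorphic.
-/

set_option autoImplicit false

open Set Filter Topology Metric
open scoped ComplexConjugate

namespace Pool.Agent.H379.TS

open Pool.Agent.H220.TS

/-- an injective function is not locally constant -/
theorem not_ev_const {U : Set ℂ} (hU : IsOpen U) {h : ℂ → ℂ} (hi : InjOn h U) {z : ℂ} (hz : z ∈ U) :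
    ¬ ∀ᶠ w in 𝓝 z, h w = h z := by
  intro hc
  have h1 : ∀ᶠ w in 𝓝 z, w = z := by
    filter_upwards [hc, hU.mem_nhds hz] with w hw hwU
    exact hi hwU hz hw
  have h2 : ∀ᶠ w in 𝓝[≠] z, w = z := h1.filter_mono nhdsWithin_le_nhds
  have h3 : ∀ᶠ w in 𝓝[≠] z, w ≠ z := self_mem_nhdsWithin
  obtain ⟨w, hw1, hw2⟩ := (h2.and h3).exists
  exact hw2 hw1

theorem nhds_le_map {U : Set ℂ} (hU : IsOpen U) {h : ℂ → ℂ} (hd : DifferentiableOn ℂ h U)
    (hi : InjOn h U) {z : ℂ} (hz : z ∈ U) : 𝓝 (h z) ≤ map h (𝓝 z) :=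
  ((hd.analyticAt (hU.mem_nhds hz)).eventually_constant_or_nhds_le_map_nhds).resolve_left
    (not_ev_const hU hi hz)

/-- the derivative does not vanish in a punctured neighbourhood -/
theorem ev_deriv_ne {U : Set ℂ} (hU : IsOpen U) {h : ℂ → ℂ} (hd : DifferentiableOn ℂ h U)
    (hi : InjOn h U) {z : ℂ} (hz : z ∈ U) : ∀ᶠ w in 𝓝[≠] z, deriv h w ≠ 0 := by
  have ha : AnalyticAt ℂ (deriv h) z := (hd.analyticAt (hU.mem_nhds hz)).deriv
  refine ha.eventually_eq_zero_or_eventually_ne_zero.resolve_left fun h0 => ?_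
  apply not_ev_const hU hi hz
  obtain ⟨r, hr, hb⟩ := Metric.eventually_nhds_iff_ball.1 (h0.and (hU.mem_nhds hz))
  filter_upwards [Metric.ball_mem_nhds z hr] with w hw
  refine (convex_ball z r).is_const_of_fderivWithin_eq_zero (𝕜 := ℂ) (f := h)
    (fun x hx => ((hd.differentiableAt (hU.mem_nhds (hb x hx).2)).differentiableWithinAt))
    (fun x hx => ?_) hw (Metric.mem_ball_self hr)
  rw [fderivWithin_of_isOpen Metric.isOpen_ball hx]
  ext
  rw [zero_apply, ← (hb x hx).1]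
  rfl

section inv

variable {U : Set ℂ} {h g : ℂ → ℂ}

theorem inv_continuousAt (hU : IsOpen U) (hd : DifferentiableOn ℂ h U) (hi : InjOn h U)
    (hg : ∀ z ∈ U, g (h z) = z) {z : ℂ} (hz : z ∈ U) : ContinuousAt g (h z) := by
  unfold ContinuousAt
  rw [hg z hz]
  intro N hN
  have h1 : h '' (N ∩ U) ∈ 𝓝 (h z) :=
    nhds_le_map hU hd hi hz (Filter.image_mem_map (Filter.inter_mem hN (hU.mem_nhds hz)))
  rw [Filter.mem_map]
  filter_upwards [h1] with w hw
  obtain ⟨y, hy, rfl⟩ := hw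
  rw [Set.mem_preimage, hg y hy.2]
  exact hy.1

theorem inv_analyticAt (hU : IsOpen U) (hd : DifferentiableOn ℂ h U) (hi : InjOn h U)
    (hg : ∀ z ∈ U, g (h z) = z) {z : ℂ} (hz : z ∈ U) : AnalyticAt ℂ g (h z) := by
  apply Complex.analyticAt_of_differentiable_on_punctured_nhds_of_continuousAt
  · have h1 := ev_deriv_ne hU hd hi hz
    rw [eventually_nhdsWithin_iff] at h1
    have h2 : ∀ᶠ w in 𝓝 z, (w ≠ z → deriv h w ≠ 0) ∧ w ∈ U := h1.and (hU.mem_nhds hz)
    have h3 : h '' {w | (w ≠ z → deriv h w ≠ 0) ∧ w ∈ U} ∈ 𝓝 (h z) :=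
      nhds_le_map hU hd hi hz (Filter.image_mem_map h2)
    filter_upwards [nhdsWithin_le_nhds h3, self_mem_nhdsWithin] with w hw hw2
    obtain ⟨y, ⟨hy1, hy2⟩, rfl⟩ := hw
    have hyz : y ≠ z := by
      rintro rfl
      exact hw2 rfl
    have h4 : HasDerivAt h (deriv h y) (g (h y)) := by
      rw [hg y hy2]
      exact (hd.differentiableAt (hU.mem_nhds hy2)).hasDerivAt
    have h5 : ∀ᶠ v in 𝓝 (h y), h (g v) = v := by
      have h6 : h '' U ∈ 𝓝 (h y) :=
        nhds_le_map hU hd hi hy2 (Filter.image_mem_map (hU.mem_nhds hy2))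
      filter_upwards [h6] with v hv
      obtain ⟨x, hx, rfl⟩ := hv
      rw [hg x hx]
    exact (h4.of_local_left_inverse (inv_continuousAt hU hd hi hg hy2) (hy1 hyz)
      h5).differentiableAt
  · exact inv_continuousAt hU hd hi hg hz

end inv

theorem s_inv (hp : S_pick) : S_inv := by
  intro h R hd hi hR z₁ hz₁ hb z₂ hz₂ hlt
  have hDo : IsOpen D := Metric.isOpen_ball
  set g : ℂ → ℂ := Function.invFunOn h D with hgdef
  have hg : ∀ z ∈ D, g (h z) = z := fun z hz => hi.leftInvOn_invFunOn hz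
  set G : ℂ → ℂ := fun ζ => g (h z₁ + R * ζ) with hG
  have hmem : ∀ ζ ∈ D, ∃ y ∈ D, h y = h z₁ + R * ζ := by
    intro ζ hζ
    have h1 : h z₁ + R * ζ ∈ ball (h z₁) R := by
      rw [Metric.mem_ball, dist_eq_norm, add_sub_cancel_left, norm_mul, Complex.norm_real,
        Real.norm_eq_abs, abs_of_pos hR]
      have h2 : ‖ζ‖ < 1 := by
        have := Metric.mem_ball.1 hζ
        rwa [dist_zero_right] at this
      calc R * ‖ζ‖ < R * 1 := mul_lt_mul_of_pos_left h2 hR
        _ = R := mul_one R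
    exact hb h1
  have hGd : DifferentiableOn ℂ G D := by
    intro ζ hζ
    obtain ⟨y, hy, hyz⟩ := hmem ζ hζ
    have h1 : AnalyticAt ℂ g (h z₁ + R * ζ) := by
      rw [← hyz]
      exact inv_analyticAt hDo hd hi hg hy
    have h2 : DifferentiableAt ℂ (fun ζ : ℂ => h z₁ + (R : ℂ) * ζ) ζ := by fun_prop
    exact (DifferentiableAt.comp ζ h1.differentiableAt h2).differentiableWithinAt
  have hGm : MapsTo G D D := by
    intro ζ hζ
    obtain ⟨y, hy, hyz⟩ := hmem ζ hζ
    change g (h z₁ + R * ζ) ∈ D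
    rw [← hyz, hg y hy]
    exact hy
  have h0 : (0 : ℂ) ∈ D := Metric.mem_ball_self one_pos
  have hRC : (R : ℂ) ≠ 0 := by exact_mod_cast hR.ne'
  have hn : ‖(h z₂ - h z₁) / R‖ = ‖h z₂ - h z₁‖ / R := by
    rw [norm_div, Complex.norm_real, Real.norm_eq_abs, abs_of_pos hR]
  have h2 : (h z₂ - h z₁) / R ∈ D := by
    rw [D, Metric.mem_ball, dist_zero_right, hn, div_lt_one hR]
    exact hlt
  have hG0 : G 0 = z₁ := by
    change g (h z₁ + R * 0) = z₁
    rw [mul_zero, add_zero, hg z₁ hz₁]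
  have hG2 : G ((h z₂ - h z₁) / R) = z₂ := by
    change g (h z₁ + R * ((h z₂ - h z₁) / R)) = z₂
    rw [mul_div_cancel₀ _ hRC, add_sub_cancel, hg z₂ hz₂]
  have h3 := hp.2 G hGd hGm 0 h0 _ h2
  rw [hG0, hG2] at h3
  refine h3.trans (le_of_eq ?_)
  unfold psi
  rw [map_zero, zero_mul, sub_zero, div_one, zero_sub, norm_neg, hn]

end Pool.Agent.H379.TS
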